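import Pool.Agent.Helper70.MM.Goals3

/-!
Project MM, goal `DERVJ`.
-/

open MeasureTheory Set Metric
open scoped ENNReal RealInnerProductSpace Topology
open Pool.Agent.Results.MP_91ee6f_gt

namespace Pool.Agent.Helper13.MM

/-- `f(ρ) = e^{-ℓρ}/ρ`. -/
private noncomputable def ffr (l r : ℝ) : ℝ := Real.exp (-(l * r)) / r

/-- The ratio of derivatives. -/
private noncomputable def mm (c l r : ℝ) : ℝ :=
  Real.exp (-(l * r)) * (1 + l * r) * (r ^ 2 + c) ^ 2 / (2 * r ^ 3)

private theorem hasDeriv_ff (l r : ℝ) (hr : 0 < r) :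
    HasDerivAt (ffr l) (-(Real.exp (-(l * r)) * (l * r + 1) / r ^ 2)) r := by
  have h1 : HasDerivAt (fun x : ℝ => -(l * x)) (-l) r := by
    have h : HasDerivAt (fun x : ℝ => -(l * x)) (-(l * 1)) r :=
      ((hasDerivAt_id r).const_mul l).neg
    rwa [mul_one] at h
  have h2 := h1.exp
  have h3 := h2.div (hasDerivAt_id r) hr.ne'
  have h4 : HasDerivAt (ffr l) _ r := h3
  refine h4.congr_deriv ?_
  simp only [id]
  field_simp
  ring

private theorem hasDeriv_phi (c r : ℝ) (hc : r ^ 2 + c ≠ 0) :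
    HasDerivAt (fun x : ℝ => 1 / (x ^ 2 + c)) (-(2 * r / (r ^ 2 + c) ^ 2)) r := by
  have h1 : HasDerivAt (fun x : ℝ => x ^ 2 + c) (2 * r) r := by
    simpa using (hasDerivAt_pow 2 r).add_const c
  have h3 := (hasDerivAt_const r (1 : ℝ)).div h1 hc
  refine h3.congr_deriv ?_
  ring

private theorem hasDeriv_mm (c l r : ℝ) (hr : 0 < r) :
    HasDerivAt (mm c l) (Real.exp (-(l * r)) * (r ^ 2 + c) / (2 * r ^ 4) *
      ((1 + l * r) * (4 * r ^ 2 - 3 * (r ^ 2 + c)) - l ^ 2 * r ^ 2 * (r ^ 2 + c))) r := by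
  have h1 : HasDerivAt (fun x : ℝ => -(l * x)) (-l) r := by
    have h : HasDerivAt (fun x : ℝ => -(l * x)) (-(l * 1)) r :=
      ((hasDerivAt_id r).const_mul l).neg
    rwa [mul_one] at h
  have h2 := h1.exp
  have h3 : HasDerivAt (fun x : ℝ => 1 + l * x) l r := by
    simpa using ((hasDerivAt_id r).const_mul l).const_add 1
  have h4 : HasDerivAt (fun x : ℝ => (x ^ 2 + c) ^ 2) (2 * (r ^ 2 + c) * (2 * r)) r := by
    have h : HasDerivAt (fun x : ℝ => x ^ 2 + c) (2 * r) r := by
      simpa using (hasDerivAt_pow 2 r).add_const c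
    have h' : HasDerivAt (fun x : ℝ => (x ^ 2 + c) ^ 2) _ r := h.pow 2
    refine h'.congr_deriv ?_
    norm_num
  have h5 : HasDerivAt (fun x : ℝ => 2 * x ^ 3) (2 * (3 * r ^ 2)) r := by
    simpa using (hasDerivAt_pow 3 r).const_mul (2 : ℝ)
  have h6 : (2 * r ^ 3 : ℝ) ≠ 0 := by positivity
  have h7 := ((h2.mul h3).mul h4).div h5 h6
  have h8 : HasDerivAt (mm c l) _ r := h7
  refine h8.congr_deriv ?_
  simp only [Pi.mul_apply]
  field_simp
  ring

/-- The polynomial inequality behind the monotonicity of `mm`. -/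
private theorem key_ineq (l r q : ℝ) (hl : 0 < l) (hl1 : l ≤ 1) (hr : 0 < r) (_hr2 : 2 ≤ r ^ 2)
    (hq : 0 < q) (hq1 : q ≤ 9 / 4) (hq2 : q ≤ r ^ 2 - 3 / 4) :
    0 ≤ (1 + l * r) * (4 * r ^ 2 - 3 * q) - l ^ 2 * r ^ 2 * q := by
  have e1 : l ^ 2 * r ^ 2 ≤ r * (1 + l * r) := by
    have : l ^ 2 * r ^ 2 ≤ l * r ^ 2 := by
      have : l ^ 2 ≤ l := by nlinarith
      nlinarith [sq_nonneg r]
    nlinarith
  have e2 : q * (r + 3) ≤ 4 * r ^ 2 := by
    rcases le_total (r ^ 2) 3 with h | h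
    · have h1 : r ≤ 7 / 4 := by nlinarith
      have h2 : q * (r + 3) ≤ q * (19 / 4) := mul_le_mul_of_nonneg_left (by linarith) hq.le
      nlinarith
    · have h1 : (17 / 10 : ℝ) ≤ r := by nlinarith
      have h2 : q * (r + 3) ≤ 9 / 4 * (r + 3) := mul_le_mul_of_nonneg_right hq1 (by linarith)
      nlinarith
  have e3 : l ^ 2 * r ^ 2 * q ≤ r * (1 + l * r) * q := mul_le_mul_of_nonneg_right e1 hq.le
  have e4 : (1 + l * r) * (q * (r + 3)) ≤ (1 + l * r) * (4 * r ^ 2) :=
    mul_le_mul_of_nonneg_left e2 (by positivity)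
  nlinarith

private theorem sinh_mul_le (x y : ℝ) (hx : 0 ≤ x) (hy : 0 ≤ y) (hy1 : y ≤ 1) :
    Real.sinh (x * y) ≤ y * Real.sinh x := by
  have hd : ∀ t : ℝ, HasDerivAt (fun t => y * Real.sinh t - Real.sinh (t * y))
      (y * (Real.cosh t - Real.cosh (t * y))) t := by
    intro t
    have h1 := (Real.hasDerivAt_sinh t).const_mul y
    have h2 : HasDerivAt (fun t : ℝ => t * y) y t := by
      simpa using (hasDerivAt_id t).mul_const y
    have h3 := (Real.hasDerivAt_sinh (t * y)).comp t h2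
    refine (h1.sub h3).congr_deriv ?_
    ring
  have hmono : MonotoneOn (fun t => y * Real.sinh t - Real.sinh (t * y)) (Ici 0) := by
    apply monotoneOn_of_deriv_nonneg (convex_Ici 0)
    · intro t _
      exact (hd t).continuousAt.continuousWithinAt
    · intro t _
      exact (hd t).differentiableAt.differentiableWithinAt
    · intro t ht
      rw [interior_Ici] at ht
      have ht' : 0 < t := ht
      rw [(hd t).deriv]
      refine mul_nonneg hy ?_
      have : Real.cosh (t * y) ≤ Real.cosh t := by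
        rw [Real.cosh_le_cosh, abs_of_nonneg (by positivity), abs_of_nonneg ht'.le]
        nlinarith
      linarith
  have := hmono (mem_Ici.mpr (le_refl (0:ℝ))) (mem_Ici.mpr hx) hx
  simp only [Real.sinh_zero, zero_mul, mul_zero, sub_zero] at this
  linarith

private theorem exp_diff_le (l u v : ℝ) (hl : 0 < l) (hv : 0 ≤ v) (hvu : v ≤ u)
    (huv : u + v = 1) :
    Real.exp (-(l * v)) - Real.exp (-(l * u)) ≤ (u - v) * (1 - Real.exp (-l)) := by
  have h1 := sinh_mul_le (l / 2) (u - v) (by positivity) (by linarith) (by linarith)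
  have e1 : Real.exp (-(l * v)) - Real.exp (-(l * u)) =
      2 * Real.exp (-(l / 2)) * Real.sinh (l / 2 * (u - v)) := by
    rw [Real.sinh_eq]
    have a1 : Real.exp (-(l * v)) = Real.exp (-(l / 2)) * Real.exp (l / 2 * (u - v)) := by
      rw [← Real.exp_add]
      congr 1
      have : u = 1 - v := by linarith
      rw [this]; ring
    have a2 : Real.exp (-(l * u)) = Real.exp (-(l / 2)) * Real.exp (-(l / 2 * (u - v))) := by
      rw [← Real.exp_add]
      congr 1
      have : u = 1 - v := by linarith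
      rw [this]; ring
    rw [a1, a2]
    ring
  have e2 : 1 - Real.exp (-l) = 2 * Real.exp (-(l / 2)) * Real.sinh (l / 2) := by
    rw [Real.sinh_eq]
    have a1 : (1 : ℝ) = Real.exp (-(l / 2)) * Real.exp (l / 2) := by
      rw [← Real.exp_add]; simp
    have a2 : Real.exp (-l) = Real.exp (-(l / 2)) * Real.exp (-(l / 2)) := by
      rw [← Real.exp_add]
      congr 1
      ring
    rw [a2]
    nth_rewrite 1 [a1]
    ring
  rw [e1, e2]
  have h2 : 0 ≤ 2 * Real.exp (-(l / 2)) := by positivity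
  nlinarith [mul_le_mul_of_nonneg_left h1 h2]

theorem dERVJ : Pool.Agent.Helper70.MM.DERVJ := by
  intro j l u v hj hl hl1 hv hvu huv
  have hjR : (2 : ℝ) ≤ j := by exact_mod_cast hj
  have hu1 : u ≤ 1 := by linarith
  have hu0 : 0 ≤ u := by linarith
  set c : ℝ := 5 / 4 - j with hc
  set s2 := Real.sqrt ((j : ℝ) + 1) with hs2
  set r1 := Real.sqrt ((j : ℝ) + u ^ 2) with hr1
  set r0 := Real.sqrt ((j : ℝ) + v ^ 2) with hr0
  set a := Real.sqrt (j : ℝ) with ha
  have has : a ^ 2 = j := Real.sq_sqrt (by positivity)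
  have hs2s : s2 ^ 2 = j + 1 := Real.sq_sqrt (by positivity)
  have hr1s : r1 ^ 2 = j + u ^ 2 := Real.sq_sqrt (by positivity)
  have hr0s : r0 ^ 2 = j + v ^ 2 := Real.sq_sqrt (by positivity)
  have h01 : r0 ≤ r1 := Real.sqrt_le_sqrt (by nlinarith)
  have h12 : r1 ≤ s2 := Real.sqrt_le_sqrt (by nlinarith)
  have h10 : a ≤ r0 := Real.sqrt_le_sqrt (by nlinarith [sq_nonneg v])
  have ha0 : 0 < a := Real.sqrt_pos.mpr (by linarith)
  have hrange : ∀ r, a ≤ r → r ≤ s2 → (5 / 4 ≤ r ^ 2 + c ∧ r ^ 2 + c ≤ 9 / 4 ∧ 2 ≤ r ^ 2 ∧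
      r ^ 2 + c ≤ r ^ 2 - 3 / 4) := by
    intro r h1 h2
    have h3 : a ^ 2 ≤ r ^ 2 := by nlinarith
    have h4 : r ^ 2 ≤ s2 ^ 2 := by nlinarith
    refine ⟨?_, ?_, ?_, ?_⟩ <;> linarith
  have hmono : MonotoneOn (mm c l) (Icc a s2) := by
    apply monotoneOn_of_deriv_nonneg (convex_Icc _ _)
    · intro r hr
      exact (hasDeriv_mm c l r (by linarith [hr.1])).continuousAt.continuousWithinAt
    · intro r hr
      rw [interior_Icc] at hr
      exact (hasDeriv_mm c l r (by linarith [hr.1])).differentiableAt.differentiableWithinAt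
    · intro r hr
      rw [interior_Icc] at hr
      have hr0' : 0 < r := by linarith [hr.1]
      rw [(hasDeriv_mm c l r hr0').deriv]
      obtain ⟨g1, g2, g3, g4⟩ := hrange r hr.1.le hr.2.le
      have g0 : 0 < r ^ 2 + c := by linarith
      refine mul_nonneg (by positivity) ?_
      exact key_ineq l r (r ^ 2 + c) hl hl1 hr0' g3 g0 g2 g4
  set M := mm c l r1 with hM
  have hM0 : 0 ≤ M := by
    have : 0 < r1 := by linarith
    rw [hM]; unfold mm
    positivity
  let H : ℝ → ℝ := fun r => ffr l r - M * (1 / (r ^ 2 + c))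
  have hH : ∀ r, 0 < r → r ^ 2 + c ≠ 0 →
      HasDerivAt H (2 * r / (r ^ 2 + c) ^ 2 * (M - mm c l r)) r := by
    intro r hr hrc
    have := (hasDeriv_ff l r hr).sub ((hasDeriv_phi c r hrc).const_mul M)
    refine this.congr_deriv ?_
    unfold mm
    field_simp
    ring
  have hne : ∀ r, a ≤ r → r ≤ s2 → r ^ 2 + c ≠ 0 := by
    intro r h1 h2
    have := (hrange r h1 h2).1
    linarith
  have hup : H r0 ≤ H r1 := by
    have hmo : MonotoneOn H (Icc a r1) := by
      apply monotoneOn_of_deriv_nonneg (convex_Icc _ _)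
      · intro r hr
        exact (hH r (by linarith [hr.1])
          (hne r hr.1 (hr.2.trans h12))).continuousAt.continuousWithinAt
      · intro r hr
        rw [interior_Icc] at hr
        exact (hH r (by linarith [hr.1])
          (hne r hr.1.le (hr.2.le.trans h12))).differentiableAt.differentiableWithinAt
      · intro r hr
        rw [interior_Icc] at hr
        have hr0' : 0 < r := by linarith [hr.1]
        rw [(hH r hr0' (hne r hr.1.le (hr.2.le.trans h12))).deriv]
        refine mul_nonneg (by positivity) ?_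
        have := hmono ⟨hr.1.le, by linarith [hr.2]⟩ ⟨by linarith, h12⟩ hr.2.le
        linarith
    exact hmo ⟨h10, h01⟩ ⟨by linarith, le_refl _⟩ h01
  have hdn : H s2 ≤ H r1 := by
    have hmo : AntitoneOn H (Icc r1 s2) := by
      apply antitoneOn_of_deriv_nonpos (convex_Icc _ _)
      · intro r hr
        exact (hH r (by linarith [hr.1])
          (hne r (by linarith [hr.1]) hr.2)).continuousAt.continuousWithinAt
      · intro r hr
        rw [interior_Icc] at hr
        exact (hH r (by linarith [hr.1])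
          (hne r (by linarith [hr.1]) hr.2.le)).differentiableAt.differentiableWithinAt
      · intro r hr
        rw [interior_Icc] at hr
        have hr0' : 0 < r := by linarith [hr.1]
        rw [(hH r hr0' (hne r (by linarith [hr.1]) hr.2.le)).deriv]
        refine mul_nonpos_of_nonneg_of_nonpos (by positivity) ?_
        have := hmono ⟨by linarith, h12⟩ ⟨by linarith [hr.1], hr.2.le⟩ hr.1.le
        linarith
    exact hmo ⟨le_refl _, h12⟩ ⟨h12, le_refl _⟩ h12
  have hbr : 0 ≤ u * (1 / (r1 ^ 2 + c)) - v * (1 / (r0 ^ 2 + c)) -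
      (u - v) * (1 / (s2 ^ 2 + c)) := by
    have q1 : r1 ^ 2 + c = u ^ 2 + 5 / 4 := by rw [hr1s, hc]; ring
    have q2 : r0 ^ 2 + c = v ^ 2 + 5 / 4 := by rw [hr0s, hc]; ring
    have q3 : s2 ^ 2 + c = 9 / 4 := by rw [hs2s, hc]; ring
    rw [q1, q2, q3]
    have hv' : v = 1 - u := by linarith
    have hp : u * v * (1 / 4 - u * v) * (u - v) / (9 / 4 * (u ^ 2 + 5 / 4) * (v ^ 2 + 5 / 4)) =
        u * (1 / (u ^ 2 + 5 / 4)) - v * (1 / (v ^ 2 + 5 / 4)) -
          (u - v) * (1 / (9 / 4)) := by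
      subst hv'
      field_simp
      ring
    rw [← hp]
    have : 0 ≤ 1 / 4 - u * v := by nlinarith [sq_nonneg (u - v)]
    have h3 : 0 ≤ u - v := by linarith
    positivity
  have e1 : u * H r1 - v * H r0 - (u - v) * H s2 ≥ 0 := by
    have h3 : 0 ≤ u - v := by linarith
    nlinarith [mul_le_mul_of_nonneg_left hup hv, mul_le_mul_of_nonneg_left hdn h3]
  have e2 : u * ffr l r1 - v * ffr l r0 - (u - v) * ffr l s2 =
      (u * H r1 - v * H r0 - (u - v) * H s2) + M * (u * (1 / (r1 ^ 2 + c)) -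
        v * (1 / (r0 ^ 2 + c)) - (u - v) * (1 / (s2 ^ 2 + c))) := by
    simp only [H]
    ring
  have e3 := mul_nonneg hM0 hbr
  have e4 : (u - v) * ffr l s2 ≤ u * ffr l r1 - v * ffr l r0 := by linarith
  have e5 := exp_diff_le l u v hl hv hvu huv
  have e6 : 0 ≤ 1 - Real.exp (-l) := by
    have : Real.exp (-l) ≤ 1 := Real.exp_le_one_iff.mpr (by linarith)
    linarith
  have e7 : 0 ≤ ffr l s2 := by
    unfold ffr
    positivity
  show ffr l s2 * (Real.exp (-(l * v)) - Real.exp (-(l * u))) ≤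
    (u * ffr l r1 - v * ffr l r0) * (1 - Real.exp (-l))
  calc ffr l s2 * (Real.exp (-(l * v)) - Real.exp (-(l * u)))
      ≤ ffr l s2 * ((u - v) * (1 - Real.exp (-l))) := mul_le_mul_of_nonneg_left e5 e7
    _ = ((u - v) * ffr l s2) * (1 - Real.exp (-l)) := by ring
    _ ≤ _ := mul_le_mul_of_nonneg_right e4 e6

end Pool.Agent.Helper13.MM
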